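import Mathlib

/-!
# Twisted group algebras: definitions
-/

set_option autoImplicit false
set_option linter.unusedSectionVars false

open ComplexConjugate

namespace Pool.Agent.Q190.TW

noncomputable section

/-- The Hilbert space `ℓ²(G)`. -/
abbrev ell2 (G : Type) : Type := lp (fun _ : G => ℂ) 2

/-- The bounded operators on `ℓ²(G)`. -/
abbrev Bd (G : Type) : Type := ell2 G →L[ℂ] ell2 G

/-- A normalized 2-cocycle `σ ∈ Z²(G, 𝕋)`. -/
structure Cocycle (G : Type) [Group G] where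
  /-- the function -/
  s : G → G → ℂ
  norm_s : ∀ g h, ‖s g h‖ = 1
  s_one_left : ∀ g, s 1 g = 1
  s_one_right : ∀ g, s g 1 = 1
  cocycle : ∀ g h k, s g h * s (g * h) k = s h k * s g (h * k)

variable {G : Type} [Group G]

lemma two_pos : 0 < (2 : ENNReal).toReal := by norm_num

lemma mem_leftT (σ : Cocycle G) (g : G) (f : ell2 G) :
    Memℓp (fun x => σ.s g (g⁻¹ * x) * f (g⁻¹ * x)) 2 := by
  rw [memℓp_gen_iff two_pos]
  simp only [norm_mul, σ.norm_s, one_mul]
  exact (Equiv.mulLeft g⁻¹).summable_iff.2 ((lp.memℓp f).summable two_pos)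

lemma mem_rightT (σ : Cocycle G) (g : G) (f : ell2 G) :
    Memℓp (fun x => σ.s (x * g⁻¹) g * f (x * g⁻¹)) 2 := by
  rw [memℓp_gen_iff two_pos]
  simp only [norm_mul, σ.norm_s, one_mul]
  exact (Equiv.mulRight g⁻¹).summable_iff.2 ((lp.memℓp f).summable two_pos)

/-- `Λ_σ(g) f`, the function `x ↦ σ(g, g⁻¹x) f(g⁻¹x)`, so that `Λ_σ(g) δ_h = σ(g,h) δ_{gh}` -/
def leftT (σ : Cocycle G) (g : G) (f : ell2 G) : ell2 G := ⟨_, mem_leftT σ g f⟩

/-- `ρ(g) f`, so that `ρ(g) δ_h = σ(h,g) δ_{hg}` -/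
def rightT (σ : Cocycle G) (g : G) (f : ell2 G) : ell2 G := ⟨_, mem_rightT σ g f⟩

lemma leftT_apply (σ : Cocycle G) (g : G) (f : ell2 G) (x : G) :
    leftT σ g f x = σ.s g (g⁻¹ * x) * f (g⁻¹ * x) := rfl

lemma rightT_apply (σ : Cocycle G) (g : G) (f : ell2 G) (x : G) :
    rightT σ g f x = σ.s (x * g⁻¹) g * f (x * g⁻¹) := rfl

lemma norm_leftT (σ : Cocycle G) (g : G) (f : ell2 G) : ‖leftT σ g f‖ = ‖f‖ := by
  rw [lp.norm_eq_tsum_rpow two_pos, lp.norm_eq_tsum_rpow two_pos]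
  congr 1
  simp only [leftT_apply, norm_mul, σ.norm_s, one_mul]
  exact (Equiv.mulLeft g⁻¹).tsum_eq (fun x => ‖f x‖ ^ (2 : ENNReal).toReal)

lemma norm_rightT (σ : Cocycle G) (g : G) (f : ell2 G) : ‖rightT σ g f‖ = ‖f‖ := by
  rw [lp.norm_eq_tsum_rpow two_pos, lp.norm_eq_tsum_rpow two_pos]
  congr 1
  simp only [rightT_apply, norm_mul, σ.norm_s, one_mul]
  exact (Equiv.mulRight g⁻¹).tsum_eq (fun x => ‖f x‖ ^ (2 : ENNReal).toReal)

/-- The twisted left regular representation `Λ_σ`. -/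
def lam (σ : Cocycle G) (g : G) : Bd G :=
  LinearMap.mkContinuous
    { toFun := leftT σ g
      map_add' := fun a b => by
        ext x
        rw [leftT_apply, lp.coeFn_add, lp.coeFn_add, Pi.add_apply, Pi.add_apply, leftT_apply,
          leftT_apply]
        ring
      map_smul' := fun c a => by
        ext x
        rw [leftT_apply, RingHom.id_apply, lp.coeFn_smul, lp.coeFn_smul, Pi.smul_apply,
          Pi.smul_apply, leftT_apply, smul_eq_mul, smul_eq_mul]
        ring } 1 (fun f => by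
        rw [one_mul]; exact (norm_leftT σ g f).le)

/-- The twisted right regular representation. -/
def rho (σ : Cocycle G) (g : G) : Bd G :=
  LinearMap.mkContinuous
    { toFun := rightT σ g
      map_add' := fun a b => by
        ext x
        rw [rightT_apply, lp.coeFn_add, lp.coeFn_add, Pi.add_apply, Pi.add_apply, rightT_apply,
          rightT_apply]
        ring
      map_smul' := fun c a => by
        ext x
        rw [rightT_apply, RingHom.id_apply, lp.coeFn_smul, lp.coeFn_smul, Pi.smul_apply,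
          Pi.smul_apply, rightT_apply, smul_eq_mul, smul_eq_mul]
        ring } 1 (fun f => by
        rw [one_mul]; exact (norm_rightT σ g f).le)

lemma lam_apply (σ : Cocycle G) (g : G) (f : ell2 G) (x : G) :
    lam σ g f x = σ.s g (g⁻¹ * x) * f (g⁻¹ * x) := rfl

lemma rho_apply (σ : Cocycle G) (g : G) (f : ell2 G) (x : G) :
    rho σ g f x = σ.s (x * g⁻¹) g * f (x * g⁻¹) := rfl

lemma norm_lam_apply (σ : Cocycle G) (g : G) (f : ell2 G) : ‖lam σ g f‖ = ‖f‖ :=
  norm_leftT σ g f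

lemma norm_rho_apply (σ : Cocycle G) (g : G) (f : ell2 G) : ‖rho σ g f‖ = ‖f‖ :=
  norm_rightT σ g f

lemma norm_lam_le (σ : Cocycle G) (g : G) : ‖lam σ g‖ ≤ 1 :=
  LinearMap.mkContinuous_norm_le _ zero_le_one _

/-- The unit vector `δ_g` of `ℓ²(G)`. -/
def delta (g : G) : ell2 G := by
  classical exact lp.single 2 g (1 : ℂ)

lemma delta_self (g : G) : delta g g = 1 := by
  classical
  unfold delta
  rw [lp.single_apply_self]

lemma delta_ne {g x : G} (h : x ≠ g) : delta g x = 0 := by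
  classical
  unfold delta
  rw [lp.single_apply_ne _ _ _ h]

lemma norm_delta (g : G) : ‖delta g‖ = 1 := by
  classical
  unfold delta
  rw [lp.norm_single (by norm_num)]
  simp

lemma lam_delta (σ : Cocycle G) (g h : G) : lam σ g (delta h) = σ.s g h • delta (g * h) := by
  ext x
  rw [lam_apply, lp.coeFn_smul, Pi.smul_apply, smul_eq_mul]
  by_cases hx : x = g * h
  · subst hx; rw [inv_mul_cancel_left, delta_self, delta_self]
  · rw [delta_ne hx, delta_ne]
    · simp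
    · intro h1
      exact hx (by rw [← h1, mul_inv_cancel_left])

lemma rho_delta (σ : Cocycle G) (g h : G) : rho σ g (delta h) = σ.s h g • delta (h * g) := by
  ext x
  rw [rho_apply, lp.coeFn_smul, Pi.smul_apply, smul_eq_mul]
  by_cases hx : x = h * g
  · subst hx; rw [mul_inv_cancel_right, delta_self, delta_self]
  · rw [delta_ne hx, delta_ne]
    · simp
    · intro h1
      exact hx (by rw [← h1, inv_mul_cancel_right])

lemma lam_mul (σ : Cocycle G) (g h : G) : lam σ g * lam σ h = σ.s g h • lam σ (g * h) := by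
  ext f x
  have h1 : (lam σ g * lam σ h) f x = lam σ g (lam σ h f) x := rfl
  have h2 : (σ.s g h • lam σ (g * h)) f x = σ.s g h * lam σ (g * h) f x := rfl
  rw [h1, h2, lam_apply, lam_apply, lam_apply, mul_inv_rev, mul_assoc h⁻¹ g⁻¹ x]
  have h3 := σ.cocycle g h (h⁻¹ * (g⁻¹ * x))
  rw [mul_inv_cancel_left] at h3
  calc σ.s g (g⁻¹ * x) * (σ.s h (h⁻¹ * (g⁻¹ * x)) * f (h⁻¹ * (g⁻¹ * x)))
      = (σ.s h (h⁻¹ * (g⁻¹ * x)) * σ.s g (g⁻¹ * x)) * f (h⁻¹ * (g⁻¹ * x)) := by ring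
    _ = _ := by rw [← h3]; ring

lemma lam_one (σ : Cocycle G) : lam σ (1 : G) = 1 := by
  ext f x
  rw [lam_apply, σ.s_one_left]
  simp

lemma lam_rho (σ : Cocycle G) (a g : G) : lam σ a * rho σ g = rho σ g * lam σ a := by
  ext f x
  have h1 : (lam σ a * rho σ g) f x = lam σ a (rho σ g f) x := rfl
  have h2 : (rho σ g * lam σ a) f x = rho σ g (lam σ a f) x := rfl
  rw [h1, h2, lam_apply, rho_apply, rho_apply, lam_apply, mul_assoc a⁻¹ x g⁻¹]
  have h3 := σ.cocycle a (a⁻¹ * (x * g⁻¹)) g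
  rw [mul_inv_cancel_left] at h3
  have h4 : a⁻¹ * (x * g⁻¹) * g = a⁻¹ * x := by group
  rw [h4] at h3
  calc σ.s a (a⁻¹ * x) * (σ.s (a⁻¹ * (x * g⁻¹)) g * f (a⁻¹ * (x * g⁻¹)))
      = (σ.s (a⁻¹ * (x * g⁻¹)) g * σ.s a (a⁻¹ * x)) * f (a⁻¹ * (x * g⁻¹)) := by ring
    _ = _ := by rw [← h3]; ring

lemma rho_mul (σ : Cocycle G) (g h : G) : rho σ g * rho σ h = σ.s h g • rho σ (h * g) := by
  ext f x
  have h1 : (rho σ g * rho σ h) f x = rho σ g (rho σ h f) x := rfl
  have h2 : (σ.s h g • rho σ (h * g)) f x = σ.s h g * rho σ (h * g) f x := rfl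
  rw [h1, h2, rho_apply, rho_apply, rho_apply, mul_inv_rev, ← mul_assoc x g⁻¹ h⁻¹]
  have h3 := σ.cocycle (x * g⁻¹ * h⁻¹) h g
  rw [inv_mul_cancel_right] at h3
  calc σ.s (x * g⁻¹) g * (σ.s (x * g⁻¹ * h⁻¹) h * f (x * g⁻¹ * h⁻¹))
      = (σ.s (x * g⁻¹ * h⁻¹) h * σ.s (x * g⁻¹) g) * f (x * g⁻¹ * h⁻¹) := by ring
    _ = _ := by rw [h3]; ring

/-- The reduced twisted group C*-algebra `C_r^*(G, σ)`: the norm closure of the span of the
`Λ_σ(g)`. -/
def reducedCstar (σ : Cocycle G) : Submodule ℂ (Bd G) :=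
  (Submodule.span ℂ (Set.range (lam σ))).topologicalClosure

/-- The Fourier coefficient `x̂(g) = (x δ_e)(g)`. -/
def fourier (x : Bd G) (g : G) : ℂ := x (delta 1) g

lemma norm_fourier_le (x : Bd G) (g : G) : ‖fourier x g‖ ≤ ‖x‖ := by
  unfold fourier
  refine (lp.norm_apply_le_norm (by norm_num) _ g).trans ?_
  refine (x.le_opNorm _).trans ?_
  rw [norm_delta, mul_one]

/-- Fourier coefficients as functionals -/
def fourierCLM (g : G) : Bd G →L[ℂ] ℂ :=
  LinearMap.mkContinuous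
    { toFun := fun x => fourier x g
      map_add' := fun _ _ => rfl
      map_smul' := fun _ _ => rfl } 1 (fun x => by
        rw [one_mul]; exact norm_fourier_le x g)

lemma fourierCLM_apply (g : G) (x : Bd G) : fourierCLM g x = fourier x g := rfl

lemma fourier_lam_self (σ : Cocycle G) (g : G) : fourier (lam σ g) g = 1 := by
  unfold fourier
  rw [lam_delta, mul_one, lp.coeFn_smul, Pi.smul_apply, delta_self, σ.s_one_right, smul_eq_mul,
    mul_one]

lemma fourier_lam_ne (σ : Cocycle G) {g h : G} (hne : h ≠ g) : fourier (lam σ g) h = 0 := by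
  unfold fourier
  rw [lam_delta, mul_one, lp.coeFn_smul, Pi.smul_apply, delta_ne hne, smul_zero]

lemma lam_mem (σ : Cocycle G) (g : G) : lam σ g ∈ reducedCstar σ :=
  (Submodule.span ℂ (Set.range (lam σ))).le_topologicalClosure
    (Submodule.subset_span ⟨g, rfl⟩)

/-- `x ∈ CF(G, σ)`: `x ∈ C_r^*(G, σ)` and the Fourier series `∑_g x̂(g) Λ_σ(g)` converges in operator
norm as an unordered sum. -/
def InCF (σ : Cocycle G) (x : Bd G) : Prop :=
  x ∈ reducedCstar σ ∧ Summable fun g => fourier x g • lam σ g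

/-- `d ∈ ND_0^+(G)`: `d ≥ 0`, `d(e) = 0`, `d(g⁻¹) = d(g)` and `∑_{i,j} conj(b_i) b_j d(g_i⁻¹ g_j) ≤ 0`
whenever `∑ b_i = 0`. -/
structure ND0 (d : G → ℝ) : Prop where
  nonneg : ∀ g, 0 ≤ d g
  one : d 1 = 0
  symm : ∀ g, d g⁻¹ = d g
  neg : ∀ (n : ℕ) (g : Fin n → G) (b : Fin n → ℂ), ∑ i, b i = 0 →
    (∑ i, ∑ j, conj (b i) * b j * (d ((g i)⁻¹ * g j) : ℂ)).re ≤ 0

end

end Pool.Agent.Q190.TW
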