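import Pool.Agent.Q190.TW.VN

/-!
# Heat smoothing
-/

set_option autoImplicit false
set_option linter.unusedSectionVars false

open ComplexConjugate

namespace Pool.Agent.Q190.TW

noncomputable section

variable {G : Type} [Group G] (σ : Cocycle G)

/-- the three-point inequality `d(gh) ≤ 2 (d(g) + d(h))` -/
lemma ND0.three {d : G → ℝ} (hd : ND0 d) (g h : G) : d (g * h) ≤ 2 * (d g + d h) := by
  have h1 := hd.neg 3 ![1, g * h, g] ![1, 1, -2] (by
    simp [Fin.sum_univ_three]; norm_num)
  have e1 : d ((g * h)⁻¹ * g) = d h := by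
    have : (g * h)⁻¹ * g = h⁻¹ := by group
    rw [this, hd.symm]
  have e2 : d (g⁻¹ * (g * h)) = d h := by
    have : g⁻¹ * (g * h) = h := by group
    rw [this]
  have e3 : d ((g * h)⁻¹) = d (g * h) := hd.symm _
  have e4 : d (g⁻¹) = d g := hd.symm _
  simp only [Fin.sum_univ_three, Matrix.cons_val_zero, Matrix.cons_val_one, Matrix.cons_val_two,
    Matrix.head_cons, Matrix.tail_cons] at h1
  simp only [inv_one, one_mul, mul_one, inv_mul_cancel, hd.one, e1, e2, e3, e4] at h1
  simp at h1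
  nlinarith

lemma ND0.far {d : G → ℝ} (hd : ND0 d) (h a : G) : d h / 2 - d a ≤ d (h * a) := by
  have h1 := hd.three (h * a) a⁻¹
  rw [mul_inv_cancel_right, hd.symm] at h1
  linarith

/-- translating a finite set far away -/
lemma ND0.exists_far {d : G → ℝ} (hd : ND0 d) (hu : ¬ BddAbove (Set.range d)) (A : Finset G)
    (R : ℝ) : ∃ h, ∀ a ∈ A, R < d (h * a) := by
  rw [not_bddAbove_iff] at hu
  obtain ⟨_, ⟨h, rfl⟩, hh⟩ := hu (2 * (R + ∑ a ∈ A, d a))
  refine ⟨h, fun a ha => ?_⟩
  have h1 : d a ≤ ∑ a ∈ A, d a := Finset.single_le_sum (fun i _ => hd.nonneg i) ha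
  have h2 := hd.far h a
  linarith

/-- the choice of the translates -/
lemma exists_translates {d : G → ℝ} (hd : ND0 d) (hu : ¬ BddAbove (Set.range d))
    (A : ℕ → Finset G) (K : ℕ → ℝ) : ∃ h : ℕ → G, (∀ n, ∀ a ∈ A n, K n < d (h n * a)) ∧
      ∀ m n, m < n → ∀ a ∈ A m, ∀ b ∈ A n, d (h m * a) < d (h n * b) := by
  classical
  choose H hH using fun (n : ℕ) (R : ℝ) => hd.exists_far hu (A n) (max R (K n))
  let R : ℕ → ℝ := fun n => Nat.rec 0 (fun n r => r + ∑ a ∈ A n, d (H n r * a)) n
  have hR : ∀ n, R (n + 1) = R n + ∑ a ∈ A n, d (H n (R n) * a) := fun n => rfl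
  have hmono : Monotone R := by
    refine monotone_nat_of_le_succ fun n => ?_
    rw [hR]
    have : 0 ≤ ∑ a ∈ A n, d (H n (R n) * a) := Finset.sum_nonneg fun a _ => hd.nonneg _
    linarith
  have hR0 : ∀ n, 0 ≤ R n := fun n => hmono (Nat.zero_le n)
  refine ⟨fun n => H n (R n), fun n a ha => (le_max_right _ _).trans_lt (hH n (R n) a ha), ?_⟩
  intro m n hmn a ha b hb
  have h1 : d (H m (R m) * a) ≤ R (m + 1) := by
    rw [hR]
    have : d (H m (R m) * a) ≤ ∑ a ∈ A m, d (H m (R m) * a) :=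
      Finset.single_le_sum (f := fun a => d (H m (R m) * a)) (fun i _ => hd.nonneg _) ha
    linarith [hR0 m]
  exact (h1.trans (hmono hmn)).trans_lt ((le_max_left _ _).trans_lt (hH n (R n) b hb))

lemma norm_lam_mul_left (h : G) (y : Bd G) : ‖lam σ h * y‖ = ‖y‖ := by
  refine le_antisymm ?_ ?_
  · calc ‖lam σ h * y‖ ≤ ‖lam σ h‖ * ‖y‖ := norm_mul_le _ _
      _ ≤ 1 * ‖y‖ := by
        gcongr
        exact norm_lam_le σ h
      _ = ‖y‖ := one_mul _
  · refine ContinuousLinearMap.opNorm_le_bound _ (norm_nonneg _) fun f => ?_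
    have h1 : ‖(lam σ h * y) f‖ = ‖y f‖ := norm_lam_apply σ h (y f)
    rw [← h1]
    exact ContinuousLinearMap.le_opNorm _ _

/-- Fourier coefficients of a finite sum -/
lemma fourier_sum_lam (A : Finset G) (c : G → ℂ) (g : G) [Decidable (g ∈ A)] :
    fourier (∑ a ∈ A, c a • lam σ a : Bd G) g = if g ∈ A then c g else 0 := by
  classical
  have h1 : fourier (∑ a ∈ A, c a • lam σ a : Bd G) g = ∑ a ∈ A, c a * fourier (lam σ a) g := by
    rw [← fourierCLM_apply, map_sum]
    refine Finset.sum_congr rfl fun a _ => ?_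
    rw [map_smul, fourierCLM_apply, smul_eq_mul]
  rw [h1]
  by_cases hg : g ∈ A
  · rw [if_pos hg, Finset.sum_eq_single g]
    · rw [fourier_lam_self, mul_one]
    · intro b _ hb
      rw [fourier_lam_ne σ (Ne.symm hb), mul_zero]
    · exact fun h => absurd hg h
  · rw [if_neg hg]
    refine Finset.sum_eq_zero fun b hb => ?_
    rw [fourier_lam_ne σ (fun h : g = b => hg (by rw [h]; exact hb)), mul_zero]

/-- an absolutely convergent series of the `Λ_σ(g)` is in `CF(G, σ)` -/
lemma inCF_of_summable {u : G → ℂ} (hu : Summable fun g => ‖u g‖) :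
    ∃ y : Bd G, InCF σ y ∧ ∀ g, fourier y g = u g := by
  have h1 : Summable fun g => u g • lam σ g := by
    refine Summable.of_norm_bounded hu fun g => ?_
    rw [norm_smul]
    exact mul_le_of_le_one_right (norm_nonneg _) (norm_lam_le σ g)
  have h2 : ∀ g, fourier (∑' g, u g • lam σ g : Bd G) g = u g := by
    classical
    intro g
    have h3 := (h1.hasSum.mapL (fourierCLM g)).tsum_eq
    rw [fourierCLM_apply] at h3
    rw [← h3, tsum_eq_single g]
    · rw [map_smul, fourierCLM_apply, fourier_lam_self, smul_eq_mul, mul_one]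
    · intro b hb
      rw [map_smul, fourierCLM_apply, fourier_lam_ne σ (Ne.symm hb), smul_zero]
  refine ⟨∑' g, u g • lam σ g, ⟨?_, ?_⟩, h2⟩
  · exact (Submodule.isClosed_topologicalClosure _).mem_of_tendsto h1.hasSum
      (Filter.Eventually.of_forall fun s => Submodule.sum_mem _ fun g _ =>
        Submodule.smul_mem _ _ (lam_mem σ g))
  · simpa only [h2] using h1

/-- **The main construction.** -/
theorem exists_heat [Infinite G] {d : G → ℝ} (hd : ND0 d) (hu : ¬ BddAbove (Set.range d)) :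
    ∃ x : Bd G, x ∈ reducedCstar σ ∧ ¬ InCF σ x ∧
      ∀ t : ℝ, 0 < t → Summable fun g => ‖(Real.exp (-t * d g) : ℂ) * fourier x g‖ := by
  classical
  choose A B c hBA hle hge using fun n : ℕ => unconditional_unbounded σ ((2 : ℝ) ^ n) (by positivity)
  -- total mass
  let W : ℕ → ℝ := fun n => ∑ a ∈ A n, ‖c n a‖
  have hW : ∀ n, 0 ≤ W n := fun n => Finset.sum_nonneg fun a _ => norm_nonneg _
  -- `K n` is so large that `exp (-K n / (n + 1)) * W n ≤ 1`
  let K : ℕ → ℝ := fun n => (n + 1) * (W n + 1)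
  obtain ⟨h, hK, hlt⟩ := exists_translates hd hu A K
  have hinj : ∀ m n, ∀ a ∈ A m, ∀ b ∈ A n, h m * a = h n * b → m = n := by
    intro m n a ha b hb hab
    by_contra hmn
    obtain h1 | h1 := lt_or_gt_of_ne hmn
    · have := hlt m n h1 a ha b hb
      rw [hab] at this
      exact lt_irrefl _ this
    · have := hlt n m h1 b hb a ha
      rw [hab] at this
      exact lt_irrefl _ this
  let y : ℕ → Bd G := fun n => ∑ a ∈ A n, c n a • lam σ a
  let x : ℕ → Bd G := fun n => ((2 : ℂ)⁻¹ ^ n) • (lam σ (h n) * y n)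
  have hxn : ∀ n, ‖x n‖ ≤ (2 : ℝ)⁻¹ ^ n := by
    intro n
    have h1 : ‖x n‖ = (2 : ℝ)⁻¹ ^ n * ‖y n‖ := by
      change ‖((2 : ℂ)⁻¹ ^ n) • (lam σ (h n) * y n)‖ = _
      rw [norm_smul, norm_lam_mul_left, norm_pow, norm_inv, Complex.norm_ofNat]
    rw [h1]
    exact mul_le_of_le_one_right (by positivity) (hle n)
  have hsx : Summable x := by
    refine Summable.of_norm_bounded (g := fun n => (2 : ℝ)⁻¹ ^ n) ?_ hxn
    exact summable_geometric_of_lt_one (by positivity) (by norm_num)
  -- the blocks as Fourier polynomials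
  let q : ℕ → G → ℂ := fun n g => (2 : ℂ)⁻¹ ^ n * (c n ((h n)⁻¹ * g) * σ.s (h n) ((h n)⁻¹ * g))
  let T : ℕ → Finset G := fun n => (A n).image (h n * ·)
  have hsumT : ∀ n (D : Finset G), ((2 : ℂ)⁻¹ ^ n) • (lam σ (h n) * ∑ a ∈ D, c n a • lam σ a) =
      ∑ g ∈ D.image (h n * ·), q n g • lam σ g := by
    intro n D
    rw [Finset.sum_image (fun a _ b _ hab => mul_left_cancel hab), Finset.mul_sum, Finset.smul_sum]
    refine Finset.sum_congr rfl fun a _ => ?_
    rw [mul_smul_comm, lam_mul, smul_smul, smul_smul]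
    congr 1
    change _ = (2 : ℂ)⁻¹ ^ n * (c n ((h n)⁻¹ * (h n * a)) * σ.s (h n) ((h n)⁻¹ * (h n * a)))
    rw [inv_mul_cancel_left]
    ring
  have hxT : ∀ n, x n = ∑ g ∈ T n, q n g • lam σ g := fun n => hsumT n (A n)
  have hfx : ∀ n g, fourier (x n) g = if g ∈ T n then q n g else 0 := by
    intro n g
    rw [hxT, fourier_sum_lam]
  have hmemT : ∀ n g, g ∈ T n ↔ ∃ a ∈ A n, h n * a = g := by
    intro n g
    exact Finset.mem_image
  have hfX : ∀ g, fourier (∑' n, x n) g = ∑' n, fourier (x n) g := by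
    intro g
    have h3 := (hsx.hasSum.mapL (fourierCLM g)).tsum_eq
    rw [fourierCLM_apply] at h3
    rw [← h3]
    rfl
  have hfXT : ∀ n, ∀ g ∈ T n, fourier (∑' n, x n) g = q n g := by
    intro n g hg
    rw [hfX, tsum_eq_single n]
    · rw [hfx, if_pos hg]
    · intro m hm
      rw [hfx, if_neg]
      intro hg'
      obtain ⟨a, ha, rfl⟩ := (hmemT _ _).1 hg
      obtain ⟨b, hb, hab⟩ := (hmemT _ _).1 hg'
      exact hm (hinj m n b hb a ha hab)
  refine ⟨∑' n, x n, ?_, ?_, ?_⟩
  · refine (Submodule.isClosed_topologicalClosure _).mem_of_tendsto hsx.hasSum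
      (Filter.Eventually.of_forall fun s => Submodule.sum_mem _ fun n _ => ?_)
    rw [hxT]
    exact Submodule.sum_mem _ fun g _ => Submodule.smul_mem _ _ (lam_mem σ g)
  · rintro ⟨-, hs⟩
    obtain ⟨S, hS⟩ := hs.vanishing (Metric.ball_mem_nhds (0 : Bd G) one_pos)
    -- a block far away from `S`
    obtain ⟨n, hn⟩ := exists_nat_ge (∑ g ∈ S, d g)
    have hdisj : Disjoint ((B n).image (h n * ·)) S := by
      rw [Finset.disjoint_left]
      intro g hg hgS
      obtain ⟨a, ha, rfl⟩ := Finset.mem_image.1 hg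
      have h1 := hK n a (hBA n ha)
      have h2 : d (h n * a) ≤ ∑ g ∈ S, d g := Finset.single_le_sum (fun i _ => hd.nonneg i) hgS
      have h3 : (n : ℝ) ≤ K n := by
        change (n : ℝ) ≤ (n + 1) * (W n + 1)
        have := hW n
        have h4 : (0 : ℝ) ≤ n := n.cast_nonneg
        nlinarith
      linarith
    have h1 := hS _ hdisj
    have h2 : ∑ g ∈ (B n).image (h n * ·), fourier (∑' n, x n) g • lam σ g =
        ((2 : ℂ)⁻¹ ^ n) • (lam σ (h n) * ∑ a ∈ B n, c n a • lam σ a) := by
      rw [hsumT]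
      refine Finset.sum_congr rfl fun g hg => ?_
      rw [hfXT n g (Finset.image_subset_image (hBA n) hg)]
    rw [h2, mem_ball_zero_iff, norm_smul, norm_lam_mul_left, norm_pow, norm_inv,
      Complex.norm_ofNat] at h1
    have h3 := hge n
    have h4 : (2 : ℝ)⁻¹ ^ n * 2 ^ n ≤ (2 : ℝ)⁻¹ ^ n * ‖(∑ a ∈ B n, c n a • lam σ a : Bd G)‖ := by
      gcongr
    rw [← mul_pow, inv_mul_cancel₀ (by norm_num), one_pow] at h4
    linarith
  · intro t ht
    -- the double series
    let F : ℕ × G → ℝ := fun p => if p.2 ∈ T p.1 then Real.exp (-t * d p.2) * ‖q p.1 p.2‖ else 0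
    have hF0 : 0 ≤ F := by
      intro p
      change 0 ≤ if p.2 ∈ T p.1 then Real.exp (-t * d p.2) * ‖q p.1 p.2‖ else 0
      split_ifs
      · positivity
      · exact le_rfl
    have hFn : ∀ n, HasSum (fun g => F (n, g)) (∑ g ∈ T n, Real.exp (-t * d g) * ‖q n g‖) := by
      intro n
      have h1 : ∑ g ∈ T n, Real.exp (-t * d g) * ‖q n g‖ = ∑ g ∈ T n, F (n, g) := by
        refine Finset.sum_congr rfl fun g hg => ?_
        change _ = if g ∈ T n then Real.exp (-t * d g) * ‖q n g‖ else 0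
        rw [if_pos hg]
      rw [h1]
      refine hasSum_sum_of_ne_finset_zero fun g hg => ?_
      change (if g ∈ T n then Real.exp (-t * d g) * ‖q n g‖ else 0) = 0
      rw [if_neg hg]
    have hle2 : ∀ n, ∑ g ∈ T n, Real.exp (-t * d g) * ‖q n g‖ ≤
        (2 : ℝ)⁻¹ ^ n * (Real.exp (-t * K n) * W n) := by
      intro n
      change ∑ g ∈ (A n).image (h n * ·), Real.exp (-t * d g) * ‖q n g‖ ≤ _
      rw [Finset.sum_image (fun a _ b _ hab => mul_left_cancel hab)]
      have h1 : ∀ a ∈ A n, Real.exp (-t * d (h n * a)) * ‖q n (h n * a)‖ ≤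
          (2 : ℝ)⁻¹ ^ n * (Real.exp (-t * K n) * ‖c n a‖) := by
        intro a ha
        have h2 : ‖q n (h n * a)‖ = (2 : ℝ)⁻¹ ^ n * ‖c n a‖ := by
          change ‖(2 : ℂ)⁻¹ ^ n * (c n ((h n)⁻¹ * (h n * a)) * σ.s (h n) ((h n)⁻¹ * (h n * a)))‖ = _
          rw [inv_mul_cancel_left, norm_mul, norm_mul, σ.norm_s, mul_one, norm_pow, norm_inv,
            Complex.norm_ofNat]
        have h3 : Real.exp (-t * d (h n * a)) ≤ Real.exp (-t * K n) := by
          refine Real.exp_le_exp.2 ?_
          have := hK n a ha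
          nlinarith
        rw [h2]
        calc Real.exp (-t * d (h n * a)) * ((2 : ℝ)⁻¹ ^ n * ‖c n a‖)
            ≤ Real.exp (-t * K n) * ((2 : ℝ)⁻¹ ^ n * ‖c n a‖) := by gcongr
          _ = _ := by ring
      refine (Finset.sum_le_sum h1).trans ?_
      rw [← Finset.mul_sum, ← Finset.mul_sum]
    have hbound : ∀ n : ℕ, 1 / t ≤ (n + 1 : ℝ) → Real.exp (-t * K n) * W n ≤ 1 := by
      intro n hn
      have h1 : 1 ≤ t * (n + 1) := by
        rw [div_le_iff₀ ht] at hn
        linarith
      have h2 : W n + 1 ≤ t * K n := by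
        change W n + 1 ≤ t * ((n + 1) * (W n + 1))
        have := hW n
        nlinarith
      have h3 : W n ≤ Real.exp (t * K n) := by
        have h4 := Real.add_one_le_exp (t * K n)
        linarith
      rw [neg_mul, Real.exp_neg, inv_mul_le_iff₀ (Real.exp_pos _), mul_one]
      exact h3
    have hsn : Summable fun n => ∑' g, F (n, g) := by
      have h1 : (fun n => ∑' g, F (n, g)) = fun n => ∑ g ∈ T n, Real.exp (-t * d g) * ‖q n g‖ :=
        funext fun n => (hFn n).tsum_eq
      rw [h1]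
      obtain ⟨N, hN⟩ := exists_nat_ge (1 / t)
      rw [← summable_nat_add_iff N]
      refine Summable.of_nonneg_of_le (f := fun n => (2 : ℝ)⁻¹ ^ (n + N)) ?_ ?_ ?_
      · intro n
        exact Finset.sum_nonneg fun g _ => by positivity
      · intro n
        refine (hle2 (n + N)).trans ?_
        refine mul_le_of_le_one_right (by positivity) (hbound _ ?_)
        push_cast
        have : (0 : ℝ) ≤ n := n.cast_nonneg
        linarith
      · exact (summable_nat_add_iff N).2
          (summable_geometric_of_lt_one (by positivity) (by norm_num))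
    have hsF : Summable F := (summable_prod_of_nonneg hF0).2 ⟨fun n => (hFn n).summable, hsn⟩
    have hsF' : Summable fun p : G × ℕ => F p.swap := hsF.prod_symm
    have hsG := hsF'.prod
    refine Summable.of_nonneg_of_le (fun g => norm_nonneg _) (fun g => ?_) hsG
    change ‖(Real.exp (-t * d g) : ℂ) * fourier (∑' n, x n) g‖ ≤ ∑' n, F (n, g)
    by_cases hg : ∃ n, g ∈ T n
    · obtain ⟨n, hg⟩ := hg
      rw [hfXT n g hg, norm_mul]
      have h1 : ‖(Real.exp (-t * d g) : ℂ)‖ = Real.exp (-t * d g) := by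
        rw [Complex.norm_real, Real.norm_of_nonneg (Real.exp_pos _).le]
      rw [h1]
      have h2 : Real.exp (-t * d g) * ‖q n g‖ = F (n, g) := by
        change _ = if g ∈ T n then Real.exp (-t * d g) * ‖q n g‖ else 0
        rw [if_pos hg]
      rw [h2]
      have h3 : Summable fun n => F (n, g) := hsF'.prod_factor g
      exact h3.le_tsum n fun m _ => hF0 _
    · have h1 : fourier (∑' n, x n) g = 0 := by
        have h0 : ∀ n, fourier (x n) g = 0 := by
          intro n
          rw [hfx n g]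
          exact if_neg (fun h2 => hg ⟨n, h2⟩)
        rw [hfX, tsum_congr h0]
        exact tsum_zero
      rw [h1, mul_zero, norm_zero]
      exact tsum_nonneg fun n => hF0 _

end

end Pool.Agent.Q190.TW
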