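import Pool.Agent.Q190.TW.Defs

/-!
# The unconditional constants of the translations are unbounded
-/

set_option autoImplicit false
set_option linter.unusedSectionVars false

open ComplexConjugate ContinuousLinearMap

namespace Pool.Agent.Q190.TW

noncomputable section

variable {G : Type} [Group G] (σ : Cocycle G)

lemma adj_lam_lam (g : G) (f : ell2 G) : adjoint (lam σ g) (lam σ g f) = f := by
  have h := (ContinuousLinearMap.norm_map_iff_adjoint_comp_self (lam σ g)).1
    (norm_lam_apply σ g)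
  have h2 := DFunLike.congr_fun h f
  exact h2

lemma adj_rho_rho (g : G) (f : ell2 G) : adjoint (rho σ g) (rho σ g f) = f := by
  have h := (ContinuousLinearMap.norm_map_iff_adjoint_comp_self (rho σ g)).1
    (norm_rho_apply σ g)
  have h2 := DFunLike.congr_fun h f
  exact h2

lemma s_ne (g h : G) : σ.s g h ≠ 0 := by
  intro h0
  have := σ.norm_s g h
  rw [h0, norm_zero] at this
  exact zero_ne_one this

lemma lam_surj (g : G) (x : ell2 G) : ∃ y, lam σ g y = x := by
  refine ⟨(σ.s g g⁻¹)⁻¹ • lam σ g⁻¹ x, ?_⟩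
  have h1 : lam σ g (lam σ g⁻¹ x) = σ.s g g⁻¹ • x := by
    have := DFunLike.congr_fun (lam_mul σ g g⁻¹) x
    rw [mul_inv_cancel, lam_one] at this
    exact this
  rw [map_smul, h1, smul_smul, inv_mul_cancel₀ (s_ne σ _ _), one_smul]

lemma rho_surj (g : G) (x : ell2 G) : ∃ y, rho σ g y = x := by
  have h0 : rho σ (1 : G) = 1 := by
    ext f x
    rw [rho_apply, σ.s_one_right]
    simp
  refine ⟨(σ.s g⁻¹ g)⁻¹ • rho σ g⁻¹ x, ?_⟩
  have h1 : rho σ g (rho σ g⁻¹ x) = σ.s g⁻¹ g • x := by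
    have := DFunLike.congr_fun (rho_mul σ g g⁻¹) x
    rw [inv_mul_cancel, h0] at this
    exact this
  rw [map_smul, h1, smul_smul, inv_mul_cancel₀ (s_ne σ _ _), one_smul]

lemma lam_adj_lam (g : G) (f : ell2 G) : lam σ g (adjoint (lam σ g) f) = f := by
  obtain ⟨y, rfl⟩ := lam_surj σ g f
  rw [adj_lam_lam]

lemma norm_adj_lam (g : G) (f : ell2 G) : ‖adjoint (lam σ g) f‖ = ‖f‖ := by
  conv_rhs => rw [← lam_adj_lam σ g f, norm_lam_apply]

/-- conjugation by `Λ(g)`: for `v = X δ_e` with `X` in the algebra, this is `Λ(g)^* X Λ(g) δ_e` -/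
def cj (g : G) : Bd G := adjoint (lam σ g) * rho σ g

lemma cj_apply (g : G) (v : ell2 G) : cj σ g v = adjoint (lam σ g) (rho σ g v) := rfl

lemma norm_cj (g : G) (v : ell2 G) : ‖cj σ g v‖ = ‖v‖ := by
  rw [cj_apply, norm_adj_lam, norm_rho_apply]

lemma inner_cj (g : G) (v w : ell2 G) : inner ℂ (cj σ g v) (cj σ g w) = inner ℂ v w := by
  rw [cj_apply, cj_apply, adjoint_inner_left, lam_adj_lam, ← adjoint_inner_right, adj_rho_rho]

lemma rho_adj_lam (a g : G) (v : ell2 G) :
    rho σ g (adjoint (lam σ a) v) = adjoint (lam σ a) (rho σ g v) := by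
  obtain ⟨w, rfl⟩ := lam_surj σ a v
  have h : lam σ a (rho σ g w) = rho σ g (lam σ a w) := DFunLike.congr_fun (lam_rho σ a g) w
  rw [adj_lam_lam, ← h, adj_lam_lam]

lemma conj_mul_s (g h : G) : conj (σ.s g h) * σ.s g h = 1 := by
  rw [← Complex.normSq_eq_conj_mul_self, Complex.normSq_eq_norm_sq, σ.norm_s]
  norm_num

lemma cj_cj (g h : G) (v : ell2 G) : cj σ g (cj σ h v) = cj σ (h * g) v := by
  rw [cj_apply, cj_apply, rho_adj_lam, cj_apply]
  have h1 : rho σ g (rho σ h v) = σ.s h g • rho σ (h * g) v :=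
    DFunLike.congr_fun (rho_mul σ g h) v
  rw [h1, map_smul, map_smul]
  -- `adj Λ_g adj Λ_h w = conj s(h,g) adj Λ_{hg} w`
  set w := rho σ (h * g) v with hw
  obtain ⟨u, hu⟩ := lam_surj σ (h * g) w
  have h2 : lam σ h (lam σ g u) = σ.s h g • lam σ (h * g) u :=
    DFunLike.congr_fun (lam_mul σ h g) u
  have h3 : lam σ h (lam σ g ((conj (σ.s h g)) • u)) = w := by
    rw [map_smul, map_smul, h2, smul_smul, conj_mul_s, one_smul, hu]
  rw [← h3, adj_lam_lam, adj_lam_lam, smul_smul, h3, ← hu, adj_lam_lam, mul_comm, conj_mul_s,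
    one_smul]

lemma cj_delta (g : G) : cj σ g (delta 1) = delta 1 := by
  rw [cj_apply, rho_delta, σ.s_one_left, one_smul, one_mul]
  have h : lam σ g (delta 1) = delta g := by
    rw [lam_delta, σ.s_one_right, one_smul, mul_one]
  rw [← h, adj_lam_lam]

/-- recurrence -/
lemma exists_re_ge [Infinite G] (v : ell2 G) (F : Finset G) {ε : ℝ} (hε : 0 < ε) :
    ∃ g, g ∉ F ∧ -ε ≤ (inner ℂ v (cj σ g v)).re := by
  classical
  by_contra hcon
  push Not at hcon
  obtain ⟨g, -, hg⟩ := exists_seq_of_forall_finset_exists (fun _ : G => True)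
    (fun x y => y * x⁻¹ ∉ F) (fun s _ => by
      obtain ⟨y, hy⟩ := Infinite.exists_notMem_finset
        (s.biUnion fun x => F.image fun a => a * x)
      refine ⟨y, trivial, fun x hx h => hy ?_⟩
      rw [Finset.mem_biUnion]
      exact ⟨x, hx, Finset.mem_image.2 ⟨_, h, by group⟩⟩)
  have key : ∀ n : ℕ, ‖∑ i ∈ Finset.range n, cj σ (g i) v‖ ^ 2 ≤
      n * ‖v‖ ^ 2 - n * (n - 1) * ε := by
    intro n
    induction n with
    | zero => simp
    | succ n ih =>
      rw [Finset.sum_range_succ, @norm_add_sq ℂ, norm_cj]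
      have h1 : RCLike.re (inner ℂ (∑ i ∈ Finset.range n, cj σ (g i) v) (cj σ (g n) v)) ≤
          n * (-ε) := by
        rw [sum_inner]
        rw [map_sum]
        have h2 : ∀ i ∈ Finset.range n, RCLike.re (inner ℂ (cj σ (g i) v) (cj σ (g n) v)) ≤ -ε := by
          intro i hi
          have h3 : cj σ (g n) v = cj σ (g i) (cj σ (g n * (g i)⁻¹) v) := by
            rw [cj_cj, inv_mul_cancel_right]
          rw [h3, inner_cj]
          exact (hcon _ (hg i n (Finset.mem_range.1 hi))).le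
        refine (Finset.sum_le_sum h2).trans ?_
        simp
      push_cast
      nlinarith
  obtain ⟨n, hn⟩ := exists_nat_gt (‖v‖ ^ 2 / ε + 1)
  have h1 := key n
  have h0 : (0 : ℝ) ≤ ‖∑ i ∈ Finset.range n, cj σ (g i) v‖ ^ 2 := by positivity
  have h2 : ‖v‖ ^ 2 < (n - 1) * ε := by
    have : ‖v‖ ^ 2 / ε < n - 1 := by linarith
    rwa [div_lt_iff₀ hε] at this
  have h3 : (0 : ℝ) < n := by
    have : 0 ≤ ‖v‖ ^ 2 / ε := by positivity
    linarith
  nlinarith

lemma inner_delta_left (a : G) (f : ell2 G) : inner ℂ (delta a) f = f a := by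
  classical
  unfold delta
  rw [lp.inner_single_left]
  simp

lemma orthonormal_delta : Orthonormal ℂ (delta : G → ell2 G) := by
  classical
  rw [orthonormal_iff_ite]
  intro a b
  rw [inner_delta_left]
  by_cases h : a = b
  · subst h; simp [delta_self]
  · rw [if_neg h, delta_ne h]

/-- the estimate for the recurrent element -/
lemma exists_rec [Infinite G] (v : ell2 G) {τ : ℝ} (hv : v 1 = (τ : ℂ)) (hτ : 0 < τ)
    (F : Finset G) : ∃ g, g ∉ F ∧ τ ^ 2 / 2 ≤ (inner ℂ v (cj σ g v)).re := by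
  set w : ell2 G := v - (τ : ℂ) • delta 1 with hw
  have hd : inner ℂ (delta 1) w = 0 := by
    rw [inner_delta_left, hw, lp.coeFn_sub, Pi.sub_apply, lp.coeFn_smul, Pi.smul_apply,
      delta_self, hv]
    simp
  obtain ⟨g, hg, h⟩ := exists_re_ge σ w F (ε := τ ^ 2 / 2) (by positivity)
  refine ⟨g, hg, ?_⟩
  have hv2 : v = (τ : ℂ) • delta 1 + w := by rw [hw]; abel
  have h1 : inner ℂ (delta 1) (cj σ g w) = 0 := by
    conv_lhs => rw [← cj_delta σ g]
    rw [inner_cj, hd]
  have h2 : inner ℂ w (delta 1) = 0 := by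
    rw [← inner_conj_symm, hd, map_zero]
  have h3 : inner ℂ v (cj σ g v) = (τ : ℂ) * τ + inner ℂ w (cj σ g w) := by
    rw [hv2, map_add, map_smul, cj_delta, inner_add_left, inner_add_right, inner_add_right,
      inner_smul_left, inner_smul_right, inner_smul_left, inner_smul_right, h1, h2,
      inner_delta_left, delta_self]
    simp
  rw [h3, Complex.add_re]
  have h4 : ((τ : ℂ) * τ).re = τ ^ 2 := by
    rw [← Complex.ofReal_mul, Complex.ofReal_re]; ring
  rw [h4]
  linarith

lemma four_sum (a b c : ell2 G) :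
    ‖a + (b + c)‖ ^ 2 + ‖a - (b + c)‖ ^ 2 + ‖a + Complex.I • (b - c)‖ ^ 2 +
      ‖a - Complex.I • (b - c)‖ ^ 2 = 4 * (‖a‖ ^ 2 + ‖b‖ ^ 2 + ‖c‖ ^ 2) := by
  have h1 := parallelogram_law_with_norm ℂ a (b + c)
  have h2 := parallelogram_law_with_norm ℂ a (Complex.I • (b - c))
  have h3 := parallelogram_law_with_norm ℂ b c
  have h4 : ‖Complex.I • (b - c)‖ = ‖b - c‖ := by rw [norm_smul]; simp
  rw [h4] at h2
  nlinarith

/-- the norm of the vector at the next stage for `z` -/
lemma exists_z (a b c : ell2 G) : ∃ z : ℂ, ‖z‖ = 1 ∧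
    ‖a‖ ^ 2 + ‖b‖ ^ 2 + ‖c‖ ^ 2 ≤ ‖a + z • b + conj z • c‖ ^ 2 := by
  by_contra hcon
  push Not at hcon
  have h1 := hcon 1 (by simp)
  have h2 := hcon (-1) (by simp)
  have h3 := hcon Complex.I (by simp)
  have h4 := hcon (-Complex.I) (by simp)
  have h := four_sum a b c
  have e1 : a + (1 : ℂ) • b + conj (1 : ℂ) • c = a + (b + c) := by
    rw [map_one, one_smul, one_smul, add_assoc]
  have e2 : a + (-1 : ℂ) • b + conj (-1 : ℂ) • c = a - (b + c) := by
    rw [map_neg, map_one, neg_smul, one_smul, neg_smul, one_smul]; abel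
  have e3 : a + Complex.I • b + conj Complex.I • c = a + Complex.I • (b - c) := by
    rw [Complex.conj_I, neg_smul, smul_sub]; abel
  have e4 : a + (-Complex.I) • b + conj (-Complex.I) • c = a - Complex.I • (b - c) := by
    rw [map_neg, Complex.conj_I, neg_neg, neg_smul, smul_sub]; abel
  rw [e1] at h1
  rw [e2] at h2
  rw [e3] at h3
  rw [e4] at h4
  linarith

lemma rho_adj {X : Bd G} {g : G} (h : ∀ f, X (rho σ g f) = rho σ g (X f)) (y : ell2 G) :
    rho σ g (adjoint X y) = adjoint X (rho σ g y) := by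
  refine ext_inner_left ℂ fun z => ?_
  obtain ⟨z', rfl⟩ := rho_surj σ g z
  rw [adjoint_inner_right, h, ← adjoint_inner_right, adj_rho_rho, ← adjoint_inner_right (rho σ g),
    adj_rho_rho, adjoint_inner_right]

/-- Stage `k` of the construction. -/
def Stage (k : ℕ) : Prop :=
  ∃ (A : Finset G) (r s t : G → ℂ) (R P Q : Bd G), A.card = 2 ^ k ∧ (∀ a ∈ A, ‖r a‖ = 1) ∧
    (∀ a ∈ A, s a = 1 ∨ s a = -1) ∧ (∀ a ∈ A, t a = 1 ∨ t a = -1) ∧
    R = ∑ a ∈ A, r a • lam σ a ∧ P = ∑ a ∈ A, (s a * r a) • lam σ a ∧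
    Q = ∑ a ∈ A, (t a * r a) • lam σ a ∧
    (∀ f, ‖adjoint P f‖ ^ 2 + ‖adjoint Q f‖ ^ 2 = 2 ^ (k + 1) * ‖f‖ ^ 2) ∧
    (4 : ℝ) ^ k * (1 + k / 4) ≤ ‖adjoint R (R (delta 1))‖ ^ 2

lemma adj_one (f : ell2 G) : adjoint (1 : Bd G) f = f := by
  have : adjoint (1 : Bd G) = 1 := star_one _
  rw [this]; rfl

lemma stage_zero : Stage σ 0 := by
  refine ⟨{1}, fun _ => 1, fun _ => 1, fun _ => 1, 1, 1, 1, by simp, by simp, by simp, by simp,
    by simp [lam_one], by simp [lam_one], by simp [lam_one], fun f => ?_, ?_⟩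
  · rw [adj_one]; norm_num; ring
  · rw [adj_one]
    have : (1 : Bd G) (delta 1) = delta 1 := rfl
    rw [this, norm_delta]
    norm_num

lemma sum_split {A : Finset G} {g : G} (hg : ∀ a ∈ A, a * g ∉ A) [DecidableEq G]
    (u w : G → ℂ) (z : ℂ) :
    (∑ x ∈ A ∪ A.map (mulRightEmbedding g), (if x ∈ A then u x else w (x * g⁻¹) * z *
      σ.s (x * g⁻¹) g) • lam σ x : Bd G) =
    (∑ a ∈ A, u a • lam σ a) + (∑ a ∈ A, w a • lam σ a) * (z • lam σ g) := by
  rw [Finset.sum_union]
  · congr 1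
    · exact Finset.sum_congr rfl fun a ha => by rw [if_pos ha]
    · rw [Finset.sum_map, Finset.sum_mul]
      refine Finset.sum_congr rfl fun a ha => ?_
      rw [mulRightEmbedding_apply, if_neg (hg a ha), mul_inv_cancel_right, smul_mul_smul_comm,
        lam_mul, smul_smul]
  · rw [Finset.disjoint_left]
    intro x hx hx2
    rw [Finset.mem_map] at hx2
    obtain ⟨a, ha, rfl⟩ := hx2
    exact hg a ha hx

lemma sum_rho (A : Finset G) (r : G → ℂ) (g : G) (f : ell2 G) :
    (∑ a ∈ A, r a • lam σ a : Bd G) (rho σ g f) = rho σ g ((∑ a ∈ A, r a • lam σ a : Bd G) f) := by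
  rw [sum_apply, sum_apply, map_sum]
  refine Finset.sum_congr rfl fun a _ => ?_
  rw [smul_apply, smul_apply, map_smul]
  congr 1
  exact DFunLike.congr_fun (lam_rho σ a g) f

lemma stage_succ [Infinite G] {k : ℕ} (h : Stage σ k) : Stage σ (k + 1) := by
  classical
  obtain ⟨A, r, s, t, R, P, Q, hA, hr, hs, ht, hR, hP, hQ, hPQ, hm⟩ := h
  set v : ell2 G := adjoint R (R (delta 1)) with hv
  -- `τ = 2 ^ k`
  have hτ : v 1 = (((2 : ℝ) ^ k : ℝ) : ℂ) := by
    rw [← inner_delta_left, hv, adjoint_inner_right]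
    have h1 : R (delta 1) = ∑ a ∈ A, r a • delta a := by
      rw [hR, sum_apply]
      refine Finset.sum_congr rfl fun a _ => ?_
      rw [smul_apply, lam_delta, σ.s_one_right, one_smul, mul_one]
    rw [h1, orthonormal_delta.inner_sum]
    have h2 : ∀ a ∈ A, conj (r a) * r a = 1 := fun a ha => by
      rw [← Complex.normSq_eq_conj_mul_self, Complex.normSq_eq_norm_sq, hr a ha]
      norm_num
    rw [Finset.sum_congr rfl h2]
    simp [hA]
  obtain ⟨g, hg1, hg2⟩ := exists_rec σ v hτ (by positivity)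
    ((A ×ˢ A).image fun p => p.1⁻¹ * p.2)
  have hg : ∀ a ∈ A, a * g ∉ A := by
    intro a ha hag
    refine hg1 (Finset.mem_image.2 ⟨(a, a * g), Finset.mem_product.2 ⟨ha, hag⟩, ?_⟩)
    simp
  obtain ⟨z, hz, hz2⟩ := exists_z (v + cj σ g v) (rho σ g v) (adjoint (lam σ g) v)
  have hzz : conj z * z = 1 := by
    rw [← Complex.normSq_eq_conj_mul_self, Complex.normSq_eq_norm_sq, hz]
    norm_num
  refine ⟨A ∪ A.map (mulRightEmbedding g),
    fun x => if x ∈ A then r x else r (x * g⁻¹) * z * σ.s (x * g⁻¹) g,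
    fun x => if x ∈ A then s x else t (x * g⁻¹), fun x => if x ∈ A then s x else -t (x * g⁻¹),
    R + R * (z • lam σ g), P + Q * (z • lam σ g), P - Q * (z • lam σ g), ?_, ?_, ?_, ?_, ?_, ?_, ?_,
    ?_, ?_⟩
  · rw [Finset.card_union_of_disjoint, Finset.card_map, hA]
    · ring
    · rw [Finset.disjoint_left]
      intro x hx hx2
      rw [Finset.mem_map] at hx2
      obtain ⟨a, ha, rfl⟩ := hx2
      exact hg a ha hx
  · intro x hx
    by_cases hxA : x ∈ A
    · simp only [if_pos hxA]; exact hr x hxA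
    · simp only [if_neg hxA]
      rw [Finset.mem_union] at hx
      obtain hx | hx := hx
      · exact absurd hx hxA
      · rw [Finset.mem_map] at hx
        obtain ⟨a, ha, rfl⟩ := hx
        rw [mulRightEmbedding_apply, mul_inv_cancel_right, norm_mul, norm_mul, σ.norm_s, hz,
          hr a ha]
        norm_num
  · intro x hx
    by_cases hxA : x ∈ A
    · simp only [if_pos hxA]; exact hs x hxA
    · simp only [if_neg hxA]
      rw [Finset.mem_union] at hx
      obtain hx | hx := hx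
      · exact absurd hx hxA
      · rw [Finset.mem_map] at hx
        obtain ⟨a, ha, rfl⟩ := hx
        rw [mulRightEmbedding_apply, mul_inv_cancel_right]
        exact ht a ha
  · intro x hx
    by_cases hxA : x ∈ A
    · simp only [if_pos hxA]; exact hs x hxA
    · simp only [if_neg hxA]
      rw [Finset.mem_union] at hx
      obtain hx | hx := hx
      · exact absurd hx hxA
      · rw [Finset.mem_map] at hx
        obtain ⟨a, ha, rfl⟩ := hx
        rw [mulRightEmbedding_apply, mul_inv_cancel_right]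
        obtain h1 | h1 := ht a ha
        · right; rw [h1]
        · left; rw [h1]; ring
  · rw [sum_split σ hg, ← hR]
  · have h1 := sum_split σ hg (fun a => s a * r a) (fun a => t a * r a) z
    rw [← hP, ← hQ] at h1
    rw [← h1]
    refine Finset.sum_congr rfl fun x _ => ?_
    by_cases hxA : x ∈ A
    · simp only [if_pos hxA]
    · simp only [if_neg hxA]
      congr 1
      ring
  · have h1 := sum_split σ hg (fun a => s a * r a) (fun a => -(t a * r a)) z
    have h2 : (∑ a ∈ A, (-(t a * r a)) • lam σ a : Bd G) = -Q := by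
      rw [hQ, ← Finset.sum_neg_distrib]
      exact Finset.sum_congr rfl fun a _ => by rw [neg_smul]
    rw [← hP, h2, neg_mul, ← sub_eq_add_neg] at h1
    rw [← h1]
    refine Finset.sum_congr rfl fun x _ => ?_
    by_cases hxA : x ∈ A
    · simp only [if_pos hxA]
    · simp only [if_neg hxA]
      congr 1
      ring
  · intro f
    have e1 : adjoint (Q * (z • lam σ g)) f = conj z • adjoint (lam σ g) (adjoint Q f) := by
      have h1 : adjoint (Q * (z • lam σ g)) = adjoint (z • lam σ g) * adjoint Q :=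
        ContinuousLinearMap.adjoint_comp _ _
      rw [h1]
      have h2 : adjoint (z • lam σ g) = conj z • adjoint (lam σ g) :=
        LinearIsometryEquiv.map_smulₛₗ _ _ _
      rw [h2]
      rfl
    have e2 : adjoint (P + Q * (z • lam σ g)) f = adjoint P f +
        conj z • adjoint (lam σ g) (adjoint Q f) := by
      rw [map_add, ContinuousLinearMap.add_apply, e1]
    have e3 : adjoint (P - Q * (z • lam σ g)) f = adjoint P f -
        conj z • adjoint (lam σ g) (adjoint Q f) := by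
      rw [map_sub, ContinuousLinearMap.sub_apply, e1]
    rw [e2, e3]
    have h1 := parallelogram_law_with_norm ℂ (adjoint P f)
      (conj z • adjoint (lam σ g) (adjoint Q f))
    have h2 : ‖conj z • adjoint (lam σ g) (adjoint Q f)‖ = ‖adjoint Q f‖ := by
      rw [norm_smul, RCLike.norm_conj, hz, one_mul, norm_adj_lam]
    rw [h2] at h1
    have h3 := hPQ f
    have h4 : (2 : ℝ) ^ (k + 1 + 1) = 2 * 2 ^ (k + 1) := by ring
    rw [h4]
    nlinarith
  · -- the new vector
    have hcomm : ∀ f, R (rho σ g f) = rho σ g (R f) := fun f => by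
      rw [hR]; exact sum_rho σ A r g f
    have e0 : R (delta g) = rho σ g (R (delta 1)) := by
      rw [← hcomm, rho_delta, σ.s_one_left, one_smul, one_mul]
    have e1 : (R + R * (z • lam σ g)) (delta 1) = R (delta 1) + z • rho σ g (R (delta 1)) := by
      have : (R + R * (z • lam σ g)) (delta 1) = R (delta 1) + R (z • lam σ g (delta 1)) := rfl
      rw [this, lam_delta, σ.s_one_right, one_smul, mul_one, map_smul, e0]
    have e2 : ∀ y, adjoint (R + R * (z • lam σ g)) y = adjoint R y +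
        conj z • adjoint (lam σ g) (adjoint R y) := by
      intro y
      have h1 : adjoint (R * (z • lam σ g)) = adjoint (z • lam σ g) * adjoint R :=
        ContinuousLinearMap.adjoint_comp _ _
      have h2 : adjoint (z • lam σ g) = conj z • adjoint (lam σ g) :=
        LinearIsometryEquiv.map_smulₛₗ _ _ _
      rw [map_add, ContinuousLinearMap.add_apply, h1, h2]
      rfl
    have e3 : adjoint (R + R * (z • lam σ g)) ((R + R * (z • lam σ g)) (delta 1)) =
        (v + cj σ g v) + z • rho σ g v + conj z • adjoint (lam σ g) v := by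
      rw [e2, e1, map_add, map_smul, ← rho_adj σ hcomm, ← hv, map_add, map_smul, smul_add,
        smul_smul, hzz, one_smul, ← cj_apply]
      abel
    rw [e3]
    refine le_trans ?_ hz2
    rw [norm_rho_apply, norm_adj_lam, @norm_add_sq ℂ, norm_cj]
    have h5 : RCLike.re (inner ℂ v (cj σ g v)) = (inner ℂ v (cj σ g v)).re := rfl
    rw [h5]
    have h6 : ((2 : ℝ) ^ k) ^ 2 = 4 ^ k := by rw [← pow_mul, mul_comm, pow_mul]; norm_num
    rw [h6] at hg2
    have h7 : (4 : ℝ) ^ (k + 1) * (1 + ((k + 1 : ℕ) : ℝ) / 4) =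
        4 * (4 ^ k * (1 + k / 4)) + 4 ^ k := by
      push_cast; ring
    rw [h7]
    nlinarith

lemma stage_all [Infinite G] (k : ℕ) : Stage σ k := by
  induction k with
  | zero => exact stage_zero σ
  | succ k ih => exact stage_succ σ ih

/-- **The unconditional constants are unbounded.** -/
theorem unconditional_unbounded [Infinite G] (C : ℝ) (hC : 0 ≤ C) :
    ∃ (A B : Finset G) (c : G → ℂ), B ⊆ A ∧ ‖(∑ a ∈ A, c a • lam σ a : Bd G)‖ ≤ 1 ∧
      C ≤ ‖(∑ a ∈ B, c a • lam σ a : Bd G)‖ := by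
  classical
  obtain ⟨k, hk⟩ := exists_nat_ge (16 * (2 * C + 1) ^ 4)
  obtain ⟨A, r, s, t, R, P, Q, hA, hr, hs, ht, hR, hP, hQ, hPQ, hm⟩ := stage_all σ k
  set N : ℝ := Real.sqrt (2 ^ (k + 1)) with hN
  have hN0 : 0 < N := Real.sqrt_pos.2 (by positivity)
  have hN2 : N ^ 2 = 2 ^ (k + 1) := Real.sq_sqrt (by positivity)
  have hPn : ‖P‖ ≤ N := by
    have h1 : ‖adjoint P‖ ≤ N := by
      refine ContinuousLinearMap.opNorm_le_bound _ hN0.le fun f => ?_
      have h2 := hPQ f
      have h3 : ‖adjoint P f‖ ^ 2 ≤ (N * ‖f‖) ^ 2 := by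
        rw [mul_pow, hN2, ← h2]
        nlinarith [sq_nonneg ‖adjoint Q f‖]
      exact abs_le_of_sq_le_sq' h3 (by positivity) |>.2
    rwa [LinearIsometryEquiv.norm_map] at h1
  have hRn : (4 : ℝ) ^ k * (1 + k / 4) ≤ ‖R‖ ^ 4 := by
    refine hm.trans ?_
    have h1 : ‖adjoint R (R (delta 1))‖ ≤ ‖R‖ * ‖R‖ := by
      refine ((adjoint R).le_opNorm _).trans ?_
      rw [LinearIsometryEquiv.norm_map]
      refine mul_le_mul_of_nonneg_left ?_ (norm_nonneg _)
      refine (R.le_opNorm _).trans ?_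
      rw [norm_delta, mul_one]
    calc ‖adjoint R (R (delta 1))‖ ^ 2 ≤ (‖R‖ * ‖R‖) ^ 2 := by gcongr
      _ = ‖R‖ ^ 4 := by ring
  have hR2 : (2 * C + 1) * N ≤ ‖R‖ := by
    have h1 : ((2 * C + 1) * N) ^ 4 ≤ ‖R‖ ^ 4 := by
      refine le_trans ?_ hRn
      have h2 : N ^ 4 = 4 * 4 ^ k := by
        have : N ^ 4 = (N ^ 2) ^ 2 := by ring
        rw [this, hN2]
        have h3 : ((2 : ℝ) ^ (k + 1)) ^ 2 = (2 ^ 2) ^ (k + 1) := by rw [← pow_mul, ← pow_mul, mul_comm]
        rw [h3]; norm_num; ring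
      rw [mul_pow, h2]
      have h3 : (0 : ℝ) < 4 ^ k := by positivity
      nlinarith
    exact le_of_pow_le_pow_left₀ (by norm_num) (norm_nonneg _) h1
  refine ⟨A, A.filter fun a => s a = 1, fun a => ((N : ℂ)⁻¹) * (s a * r a), Finset.filter_subset _ _,
    ?_, ?_⟩
  · have h1 : (∑ a ∈ A, ((N : ℂ)⁻¹ * (s a * r a)) • lam σ a : Bd G) = (N : ℂ)⁻¹ • P := by
      rw [hP, Finset.smul_sum]
      exact Finset.sum_congr rfl fun a _ => by rw [smul_smul]
    rw [h1, norm_smul, norm_inv, Complex.norm_real, Real.norm_of_nonneg hN0.le,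
      inv_mul_le_iff₀ hN0, mul_one]
    exact hPn
  · have h1 : (∑ a ∈ A.filter (fun a => s a = 1), ((N : ℂ)⁻¹ * (s a * r a)) • lam σ a : Bd G) =
        ((N : ℂ)⁻¹ * (1 / 2)) • (R + P) := by
      rw [hP, hR, ← Finset.sum_add_distrib, Finset.smul_sum, Finset.sum_filter]
      refine Finset.sum_congr rfl fun a ha => ?_
      obtain h2 | h2 := hs a ha
      · rw [if_pos h2, h2, ← add_smul, smul_smul]
        congr 1
        ring
      · rw [if_neg (by rw [h2]; norm_num), h2, ← add_smul, smul_smul]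
        simp
    rw [h1, norm_smul, norm_mul, norm_inv, Complex.norm_real, Real.norm_of_nonneg hN0.le]
    have h2 : ‖R‖ - ‖P‖ ≤ ‖R + P‖ := by
      have := norm_sub_norm_le R (-P)
      rwa [norm_neg, sub_neg_eq_add] at this
    have h3 : ‖(1 / 2 : ℂ)‖ = 1 / 2 := by norm_num
    rw [h3, mul_assoc, le_inv_mul_iff₀ hN0]
    nlinarith

end

end Pool.Agent.Q190.TW
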