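import Pool.Agent.Q190.TW.UC

/-!
# The twisted group von Neumann algebra
-/

set_option autoImplicit false
set_option linter.unusedSectionVars false

open ComplexConjugate

namespace Pool.Agent.Q190.TW

noncomputable section

variable {G : Type} [Group G] (σ : Cocycle G)

/-- The twisted group von Neumann algebra `vN(G, σ)`: the closure, in the weak operator topology, of
the span of the `Λ_σ(g)`. -/
def vN : Submodule ℂ (Bd G) :=
  (((Submodule.span ℂ (Set.range (lam σ))).map
    (ContinuousLinearMap.WOTofCLM (σ := RingHom.id ℂ) (E := ell2 G) (F := ell2 G)).toLinearMap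
    ).topologicalClosure).comap
    (ContinuousLinearMap.WOTofCLM (σ := RingHom.id ℂ) (E := ell2 G) (F := ell2 G)).toLinearMap

lemma reducedCstar_le_vN : reducedCstar σ ≤ vN σ := by
  unfold reducedCstar
  refine Submodule.topologicalClosure_minimal _ ?_ ?_
  · intro x hx
    exact Submodule.le_topologicalClosure _ (Submodule.mem_map_of_mem hx)
  · have h1 := (Submodule.isClosed_topologicalClosure
      ((Submodule.span ℂ (Set.range (lam σ))).map
        (ContinuousLinearMap.WOTofCLM (σ := RingHom.id ℂ) (E := ell2 G) (F := ell2 G)).toLinearMap))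
    exact h1.preimage
      (ContinuousLinearMap.WOTofCLM (σ := RingHom.id ℂ) (E := ell2 G) (F := ell2 G)).continuous

/-- the elements of `vN(G, σ)` commute with the right translations -/
lemma commute_of_mem_vN {x : Bd G} (hx : x ∈ vN σ) (g : G) : x * rho σ g = rho σ g * x := by
  have hcl : IsClosed {A : ell2 G →WOT[ℂ] ell2 G |
      A.comp (ContinuousLinearMapWOT.ofCLM (rho σ g)) =
        (ContinuousLinearMapWOT.ofCLM (rho σ g) : ell2 G →WOT[ℂ] ell2 G).comp A} :=
    isClosed_eq (ContinuousLinearMapWOT.continuous_precomp _)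
      (ContinuousLinearMapWOT.continuous_postcomp _)
  have h1 : ∀ A ∈ ((Submodule.span ℂ (Set.range (lam σ))).map
    (ContinuousLinearMap.WOTofCLM (σ := RingHom.id ℂ) (E := ell2 G) (F := ell2 G)).toLinearMap),
      A ∈ {A : ell2 G →WOT[ℂ] ell2 G |
      A.comp (ContinuousLinearMapWOT.ofCLM (rho σ g)) =
        (ContinuousLinearMapWOT.ofCLM (rho σ g) : ell2 G →WOT[ℂ] ell2 G).comp A} := by
    rintro _ ⟨a, ha, rfl⟩
    have h2 : a * rho σ g = rho σ g * a := by
      refine Submodule.span_induction (p := fun a _ => a * rho σ g = rho σ g * a) ?_ ?_ ?_ ?_ ha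
      · rintro _ ⟨b, rfl⟩
        exact lam_rho σ b g
      · simp
      · intro a b _ _ h3 h4
        rw [add_mul, mul_add, h3, h4]
      · intro c a _ h3
        rw [smul_mul_assoc, mul_smul_comm, h3]
    exact congrArg ContinuousLinearMapWOT.ofCLM h2
  have h3 := closure_minimal (s := (((Submodule.span ℂ (Set.range (lam σ))).map
    (ContinuousLinearMap.WOTofCLM (σ := RingHom.id ℂ) (E := ell2 G) (F := ell2 G)).toLinearMap :
      Submodule ℂ (ell2 G →WOT[ℂ] ell2 G)) : Set (ell2 G →WOT[ℂ] ell2 G))) (fun A hA => h1 A hA) hcl hx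
  exact congrArg ContinuousLinearMapWOT.toCLM h3

/-- bounded operators are determined by their values at the `δ_g` -/
lemma ext_delta {x y : Bd G} (h : ∀ g, x (delta g) = y (delta g)) : x = y := by
  classical
  ext1 f
  have h1 : HasSum (fun g : G => lp.single 2 g (f g : ℂ)) f := lp.hasSum_single (by norm_num) f
  have h2 : ∀ g : G, lp.single 2 g (f g : ℂ) = (f g : ℂ) • delta g := by
    intro g
    unfold delta
    rw [← lp.single_smul]
    simp
  have h3 := h1.mapL x
  have h4 := h1.mapL y
  have h5 : (fun g : G => x (lp.single 2 g (f g : ℂ))) = fun g : G => y (lp.single 2 g (f g : ℂ)) := by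
    funext g
    rw [h2, map_smul, map_smul, h]
  rw [h5] at h3
  exact h3.unique h4

/-- the elements of `vN(G, σ)` are determined by their Fourier coefficients -/
lemma ext_fourier {x y : Bd G} (hx : x ∈ vN σ) (hy : y ∈ vN σ)
    (h : ∀ g, fourier x g = fourier y g) : x = y := by
  have h0 : x (delta 1) = y (delta 1) := by
    ext g
    exact h g
  refine ext_delta fun g => ?_
  have h1 : delta g = rho σ g (delta 1) := by
    rw [rho_delta, σ.s_one_left, one_smul, one_mul]
  have h2 : x (rho σ g (delta 1)) = rho σ g (x (delta 1)) :=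
    DFunLike.congr_fun (commute_of_mem_vN σ hx g) _
  have h3 : y (rho σ g (delta 1)) = rho σ g (y (delta 1)) :=
    DFunLike.congr_fun (commute_of_mem_vN σ hy g) _
  rw [h1, h2, h3, h0]

/-- A bounded linear map on `vN(G, σ)` with `M Λ_σ(g) = m(g) Λ_σ(g)` multiplies the Fourier
coefficients of the elements of `C_r^*(G, σ)` by `m`. -/
lemma fourier_multiplier (m : G → ℂ) (M : vN σ →L[ℂ] vN σ)
    (hM : ∀ g, (M ⟨lam σ g, reducedCstar_le_vN σ (lam_mem σ g)⟩ : Bd G) = m g • lam σ g)
    {x : Bd G} (hx : x ∈ reducedCstar σ) (g : G) :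
    fourier (M ⟨x, reducedCstar_le_vN σ hx⟩ : Bd G) g = m g * fourier x g := by
  -- the two continuous functionals on `C_r^*(G, σ)`
  let ι : reducedCstar σ →L[ℂ] vN σ :=
    ⟨Submodule.inclusion (reducedCstar_le_vN σ), by
      exact continuous_inclusion (reducedCstar_le_vN σ)⟩
  let F1 : reducedCstar σ →L[ℂ] ℂ := (fourierCLM g).comp ((vN σ).subtypeL.comp (M.comp ι))
  let F2 : reducedCstar σ →L[ℂ] ℂ := m g • (fourierCLM g).comp (reducedCstar σ).subtypeL
  have hF1 : ∀ y : reducedCstar σ, F1 y = fourier (M ⟨y, reducedCstar_le_vN σ y.2⟩ : Bd G) g :=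
    fun y => rfl
  have hF2 : ∀ y : reducedCstar σ, F2 y = m g * fourier y g := fun y => rfl
  have key : ∀ z ∈ Submodule.span ℂ (Set.range (lam σ)), ∀ hz : z ∈ reducedCstar σ,
      F1 ⟨z, hz⟩ = F2 ⟨z, hz⟩ := by
    intro z hz
    refine Submodule.span_induction
      (p := fun z _ => ∀ hz : z ∈ reducedCstar σ, F1 ⟨z, hz⟩ = F2 ⟨z, hz⟩) ?_ ?_ ?_ ?_ hz
    · rintro _ ⟨b, rfl⟩ hb
      rw [hF1, hF2, hM]
      change fourier (m b • lam σ b) g = m g * fourier (lam σ b) g
      have h1 : fourier (m b • lam σ b) g = m b * fourier (lam σ b) g := rfl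
      rw [h1]
      by_cases hgb : g = b
      · rw [hgb]
      · rw [fourier_lam_ne σ hgb, mul_zero, mul_zero]
    · intro h0
      have : (⟨0, h0⟩ : reducedCstar σ) = 0 := rfl
      rw [this, map_zero, map_zero]
    · intro a b ha hb h1 h2 hab
      have ha' : a ∈ reducedCstar σ := Submodule.le_topologicalClosure _ ha
      have hb' : b ∈ reducedCstar σ := Submodule.le_topologicalClosure _ hb
      have : (⟨a + b, hab⟩ : reducedCstar σ) = ⟨a, ha'⟩ + ⟨b, hb'⟩ := rfl
      rw [this, map_add, map_add, h1 ha', h2 hb']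
    · intro c a ha h1 hca
      have ha' : a ∈ reducedCstar σ := Submodule.le_topologicalClosure _ ha
      have : (⟨c • a, hca⟩ : reducedCstar σ) = c • ⟨a, ha'⟩ := rfl
      rw [this, map_smul, map_smul, h1 ha']
  have hx' : x ∈ closure ((Submodule.span ℂ (Set.range (lam σ)) : Submodule ℂ (Bd G)) : Set (Bd G)) :=
    hx
  obtain ⟨u, hu, hux⟩ := mem_closure_iff_seq_limit.1 hx'
  let w : ℕ → reducedCstar σ := fun n => ⟨u n, Submodule.le_topologicalClosure _ (hu n)⟩
  have hw : Filter.Tendsto w Filter.atTop (nhds ⟨x, hx⟩) := tendsto_subtype_rng.2 hux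
  have e1 := (F1.continuous.tendsto _).comp hw
  have e2 := (F2.continuous.tendsto _).comp hw
  have e3 : F1 ∘ w = F2 ∘ w := funext fun n => key (u n) (hu n) _
  rw [e3] at e1
  have e4 := tendsto_nhds_unique e1 e2
  rw [hF1, hF2] at e4
  exact e4

end

end Pool.Agent.Q190.TW
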